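import Pool.Agent.Helper17.RZ.St3

/-!
# Project RZ (MP_77656e_ag): the cone of a strict morphism, strict retracts
-/

set_option autoImplicit false

namespace Pool.Agent.Helper84.RZ

open Pool.Agent.Helper17.RZ

universe u

noncomputable section

variable {k : Type u} [Field k] {K : Type u} [Field K] [Algebra k K]

/-! ### cones -/

theorem sum_pr (X : GrD k K) (s : Finset ℤ) (h : ∀ i, |i| ≤ (X.bd : ℤ) → i ∈ s) :
    ∑ i ∈ s, X.pr i = LinearMap.id := by
  rw [← X.pr_sum]
  symm
  refine Finset.sum_subset (fun i hi => h i (abs_le.2 (Finset.mem_Icc.1 hi))) ?_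
  intro i _ hi
  apply X.pr_bd
  by_contra hcon
  exact hi (Finset.mem_Icc.2 (abs_le.1 (not_lt.1 hcon)))

/-- the graded vector space of the cone -/
def coneGr (X Y : GrD k K) (f : X.V →ₗ[K] Y.V) (hf : IsDeg (X := X) (Y := Y) 0 f)
    (hd : f ∘ₗ X.d = Y.d ∘ₗ f) : GrD k K where
  V := X.V × Y.V
  pr i := (X.pr (i + 1)).prodMap (Y.pr i)
  bd := X.bd + Y.bd + 1
  pr_pr i j := by
    rw [LinearMap.prodMap_comp, X.pr_pr, Y.pr_pr]
    by_cases h : i = j
    · subst h; simp
    · rw [if_neg h, if_neg (fun h' => h (add_right_cancel h')), if_neg h]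
      exact LinearMap.prodMap_zero
  pr_bd i hi := by
    push_cast at hi
    have h1 : |i| ≤ |i + 1| + 1 := by
      have := abs_add_le (i + 1) (-1)
      simpa using this
    have hx : X.pr (i + 1) = 0 := X.pr_bd _ (by
      have := Int.natCast_nonneg Y.bd
      omega)
    have hy : Y.pr i = 0 := Y.pr_bd _ (by
      have := Int.natCast_nonneg X.bd
      omega)
    rw [hx, hy]
    exact LinearMap.prodMap_zero
  pr_sum := by
    have hx : ∑ i ∈ Finset.Icc (-((X.bd + Y.bd + 1 : ℕ) : ℤ)) ((X.bd + Y.bd + 1 : ℕ) : ℤ),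
        X.pr (i + 1) = LinearMap.id := by
      have h1 : ∑ i ∈ Finset.Icc (-((X.bd + Y.bd + 1 : ℕ) : ℤ)) ((X.bd + Y.bd + 1 : ℕ) : ℤ),
          X.pr (i + 1) = ∑ i ∈ Finset.Icc (-((X.bd + Y.bd + 1 : ℕ) : ℤ) + 1)
            (((X.bd + Y.bd + 1 : ℕ) : ℤ) + 1), X.pr i := by
        rw [← Finset.map_add_right_Icc, Finset.sum_map]
        rfl
      rw [h1]
      refine sum_pr X _ fun i hi => ?_
      rw [abs_le] at hi
      rw [Finset.mem_Icc]
      push_cast
      omega
    have hy : ∑ i ∈ Finset.Icc (-((X.bd + Y.bd + 1 : ℕ) : ℤ)) ((X.bd + Y.bd + 1 : ℕ) : ℤ),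
        Y.pr i = LinearMap.id := by
      refine sum_pr Y _ fun i hi => ?_
      rw [abs_le] at hi
      rw [Finset.mem_Icc]
      push_cast
      omega
    refine LinearMap.ext fun v => ?_
    rw [LinearMap.sum_apply]
    refine Prod.ext ?_ ?_
    · rw [Prod.fst_sum]
      have := congrArg (fun g => g v.1) hx
      rw [LinearMap.sum_apply] at this
      exact this
    · rw [Prod.snd_sum]
      have := congrArg (fun g => g v.2) hy
      rw [LinearMap.sum_apply] at this
      exact this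
  d := LinearMap.prod (-(X.d ∘ₗ LinearMap.fst K X.V Y.V))
    (f ∘ₗ LinearMap.fst K X.V Y.V + Y.d ∘ₗ LinearMap.snd K X.V Y.V)
  d_pr i := by
    refine LinearMap.ext fun v => ?_
    have h1 := congrArg (fun g => g v.1) (X.d_pr (i + 1))
    have h2 := congrArg (fun g => g v.2) (Y.d_pr i)
    have h3 := congrArg (fun g => g v.1) (hf (i + 1))
    rw [add_zero] at h3
    simp only [LinearMap.comp_apply] at h1 h2 h3
    refine Prod.ext ?_ ?_
    · simp [h1]
    · simp [h2, h3]
  d_d := by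
    refine LinearMap.ext fun v => ?_
    have h1 := congrArg (fun g => g v.1) X.d_d
    have h2 := congrArg (fun g => g v.2) Y.d_d
    have h3 := congrArg (fun g => g v.1) hd
    simp only [LinearMap.comp_apply, LinearMap.zero_apply] at h1 h2 h3
    refine Prod.ext ?_ ?_
    · simp [h1]
    · simp [h2, h3]

/-- the sections of the cone -/
def coneLat {Z : ProjVar k K} (X Y : Cplx Z) (σ : Finset Z.I) :
    Submodule (Z.A σ) (X.V × Y.V) where
  carrier := {v | (σ.Nonempty → v.1 ∈ X.lat σ ∧ v.2 ∈ Y.lat σ) ∧ (¬ σ.Nonempty → v = 0)}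
  add_mem' := by
    rintro a b ⟨ha, ha'⟩ ⟨hb, hb'⟩
    refine ⟨fun h => ⟨(X.lat σ).add_mem (ha h).1 (hb h).1, (Y.lat σ).add_mem (ha h).2 (hb h).2⟩,
      fun h => ?_⟩
    rw [ha' h, hb' h, add_zero]
  zero_mem' := ⟨fun _ => ⟨(X.lat σ).zero_mem, (Y.lat σ).zero_mem⟩, fun _ => rfl⟩
  smul_mem' := by
    rintro c a ⟨ha, ha'⟩
    refine ⟨fun h => ⟨(X.lat σ).smul_mem c (ha h).1, (Y.lat σ).smul_mem c (ha h).2⟩, fun h => ?_⟩
    rw [ha' h, smul_zero]

theorem mem_coneLat {Z : ProjVar k K} (X Y : Cplx Z) {σ : Finset Z.I} (hσ : σ.Nonempty)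
    (v : X.V × Y.V) : v ∈ coneLat X Y σ ↔ v.1 ∈ X.lat σ ∧ v.2 ∈ Y.lat σ :=
  ⟨fun h => h.1 hσ, fun h => ⟨fun _ => h, fun h' => absurd hσ h'⟩⟩

/-- the sections of the cone over a nonempty chart -/
def coneLatEquiv {Z : ProjVar k K} (X Y : Cplx Z) {σ : Finset Z.I} (hσ : σ.Nonempty) :
    (X.lat σ × Y.lat σ) ≃ₗ[Z.A σ] coneLat X Y σ where
  toFun v := ⟨(v.1.1, v.2.1), (mem_coneLat X Y hσ _).2 ⟨v.1.2, v.2.2⟩⟩
  invFun v := (⟨v.1.1, ((mem_coneLat X Y hσ _).1 v.2).1⟩, ⟨v.1.2, ((mem_coneLat X Y hσ _).1 v.2).2⟩)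
  map_add' _ _ := rfl
  map_smul' _ _ := rfl
  left_inv _ := rfl
  right_inv _ := rfl

theorem coneLat_loc {Z : ProjVar k K} (X Y : Cplx Z) {σ τ : Finset Z.I} (hσ : σ.Nonempty)
    (hστ : σ ⊆ τ) :
    coneLat X Y τ = Submodule.span (Z.A τ) (coneLat X Y σ : Set (X.V × Y.V)) := by
  have hτ := hσ.mono hστ
  apply le_antisymm
  · intro v hv
    rw [mem_coneLat X Y hτ, X.lat_loc σ τ hσ hστ, Y.lat_loc σ τ hσ hστ] at hv
    have h1 : ∀ x ∈ Submodule.span (Z.A τ) (X.lat σ : Set X.V),
        ((x, 0) : X.V × Y.V) ∈ Submodule.span (Z.A τ) (coneLat X Y σ : Set (X.V × Y.V)) := by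
      intro x hx
      refine Submodule.span_induction (p := fun x _ =>
        ((x, 0) : X.V × Y.V) ∈ Submodule.span (Z.A τ) (coneLat X Y σ : Set (X.V × Y.V)))
        ?_ ?_ ?_ ?_ hx
      · intro x hx
        exact Submodule.subset_span ((mem_coneLat X Y hσ _).2 ⟨hx, (Y.lat σ).zero_mem⟩)
      · exact Submodule.zero_mem _
      · intro x y _ _ hx hy
        have := Submodule.add_mem _ hx hy
        rwa [Prod.mk_add_mk, add_zero] at this
      · intro c x _ hx
        have := Submodule.smul_mem _ c hx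
        have h2 : c • ((x, 0) : X.V × Y.V) = (c • x, 0) := by
          rw [Prod.smul_mk, smul_zero]
        rwa [h2] at this
    have h2 : ∀ y ∈ Submodule.span (Z.A τ) (Y.lat σ : Set Y.V),
        ((0, y) : X.V × Y.V) ∈ Submodule.span (Z.A τ) (coneLat X Y σ : Set (X.V × Y.V)) := by
      intro y hy
      refine Submodule.span_induction (p := fun y _ =>
        ((0, y) : X.V × Y.V) ∈ Submodule.span (Z.A τ) (coneLat X Y σ : Set (X.V × Y.V)))
        ?_ ?_ ?_ ?_ hy
      · intro y hy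
        exact Submodule.subset_span ((mem_coneLat X Y hσ _).2 ⟨(X.lat σ).zero_mem, hy⟩)
      · exact Submodule.zero_mem _
      · intro x y _ _ hx hy
        have := Submodule.add_mem _ hx hy
        rwa [Prod.mk_add_mk, add_zero] at this
      · intro c x _ hx
        have := Submodule.smul_mem _ c hx
        have h2 : c • ((0, x) : X.V × Y.V) = (0, c • x) := by
          rw [Prod.smul_mk, smul_zero]
        rwa [h2] at this
    have h3 := Submodule.add_mem _ (h1 v.1 hv.1) (h2 v.2 hv.2)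
    rwa [Prod.mk_add_mk, add_zero, zero_add] at h3
  · rw [Submodule.span_le]
    intro v hv
    have hv' := (mem_coneLat X Y hσ v).1 hv
    refine (mem_coneLat X Y hτ v).2 ⟨?_, ?_⟩
    · rw [X.lat_loc σ τ hσ hστ]
      exact Submodule.subset_span hv'.1
    · rw [Y.lat_loc σ τ hσ hστ]
      exact Submodule.subset_span hv'.2

/-- the cone -/
def cone {Z : ProjVar k K} (X Y : Cplx Z) (f : X.V →ₗ[K] Y.V)
    (hf : IsDeg (X := X.toGrD) (Y := Y.toGrD) 0 f) (hd : f ∘ₗ X.d = Y.d ∘ₗ f)
    (hl : ∀ σ : Finset Z.I, σ.Nonempty → ∀ x, x ∈ X.lat σ → f x ∈ Y.lat σ) : Cplx Z where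
  toGrD := coneGr X.toGrD Y.toGrD f hf hd
  lat := coneLat X Y
  lat_fin σ hσ := by
    have := X.lat_fin σ hσ
    have := Y.lat_fin σ hσ
    exact Module.Finite.equiv (coneLatEquiv X Y hσ)
  lat_proj σ hσ := by
    have := X.lat_proj σ hσ
    have := Y.lat_proj σ hσ
    exact Module.Projective.of_equiv (coneLatEquiv X Y hσ)
  lat_gen σ hσ v := by
    obtain ⟨c, hc, hcv⟩ := X.lat_gen σ hσ v.1
    obtain ⟨c', hc', hcv'⟩ := Y.lat_gen σ hσ v.2
    refine ⟨c * c', mul_ne_zero hc hc', (mem_coneLat X Y hσ _).2 ⟨?_, ?_⟩⟩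
    · have : ((c * c') • v).1 = c' • c • v.1 := by
        rw [smul_smul, mul_comm]
        rfl
      rw [this]
      exact (X.lat σ).smul_mem _ hcv
    · have : ((c * c') • v).2 = c • c' • v.2 := by
        rw [smul_smul]
        rfl
      rw [this]
      exact (Y.lat σ).smul_mem _ hcv'
  lat_loc σ τ hσ hστ := coneLat_loc X Y hσ hστ
  lat_pr σ i v hv := by
    refine ⟨fun h => ⟨X.lat_pr σ (i + 1) _ (hv.1 h).1, Y.lat_pr σ i _ (hv.1 h).2⟩, fun h => ?_⟩
    have h0 : v = (0 : X.V × Y.V) := hv.2 h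
    exact (congrArg ((coneGr X.toGrD Y.toGrD f hf hd).pr i) h0).trans (map_zero _)
  lat_d σ v hv := by
    refine ⟨fun h => ⟨(X.lat σ).neg_mem (X.lat_d σ _ (hv.1 h).1),
      (Y.lat σ).add_mem (hl σ h _ (hv.1 h).1) (Y.lat_d σ _ (hv.1 h).2)⟩, fun h => ?_⟩
    have h0 : v = (0 : X.V × Y.V) := hv.2 h
    exact (congrArg ((coneGr X.toGrD Y.toGrD f hf hd).d) h0).trans (map_zero _)

theorem coneEx : ConeEx.{u} := by
  intro k _ K _ _ Z X Y f hf hd hl
  refine ⟨cone X Y f hf hd hl, LinearEquiv.refl K _, fun i v => rfl, fun v => rfl, ?_⟩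
  intro σ hσ v
  exact mem_coneLat X Y hσ v

theorem coneSES : ConeSES.{u} := by
  intro k _ K _ _ Z X Y C f e hpr hd hl
  refine ⟨e.symm.toLinearMap ∘ₗ LinearMap.inr K X.V Y.V,
    LinearMap.fst K X.V Y.V ∘ₗ e.toLinearMap, ?_, ?_, ?_, ?_, ?_, ?_, ?_, ?_⟩
  · intro i
    refine LinearMap.ext fun y => e.injective ?_
    have h := hpr (i + 0) (e.symm (0, y))
    simp only [LinearMap.comp_apply, LinearEquiv.coe_coe, LinearMap.inr_apply,
      LinearEquiv.apply_symm_apply, map_zero, add_zero] at h ⊢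
    rw [h]
  · intro i
    refine LinearMap.ext fun v => ?_
    have h := hpr i v
    simp only [LinearMap.comp_apply, LinearEquiv.coe_coe, LinearMap.fst_apply, h]
    change X.pr (i + 1) (e v).1 = X.pr (i + 0 + 1) (e v).1
    rw [add_zero]
  · refine LinearMap.ext fun y => e.injective ?_
    have h := hd (e.symm (0, y))
    simp only [LinearMap.comp_apply, LinearEquiv.coe_coe, LinearMap.inr_apply,
      LinearEquiv.apply_symm_apply, map_zero, neg_zero, zero_add] at h ⊢
    rw [h]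
  · refine LinearMap.ext fun v => ?_
    have h := hd v
    simp only [LinearMap.comp_apply, LinearEquiv.coe_coe, LinearMap.fst_apply, h]
    change -X.d (e v).1 = (((1 : ℤ).negOnePow : ℤˣ) : ℤ) • X.d (e v).1
    simp
  · intro y y' h
    have := e.symm.injective h
    exact (Prod.mk.inj this).2
  · intro x
    refine ⟨e.symm (x, 0), ?_⟩
    rw [LinearMap.comp_apply, LinearEquiv.coe_coe, LinearEquiv.apply_symm_apply]
    rfl
  · intro v
    constructor
    · intro h
      refine ⟨(e v).2, ?_⟩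
      apply e.injective
      simp only [LinearMap.comp_apply, LinearEquiv.coe_coe, LinearMap.fst_apply,
        LinearMap.inr_apply, LinearEquiv.apply_symm_apply] at h ⊢
      exact Prod.ext h.symm rfl
    · rintro ⟨y, rfl⟩
      rw [LinearMap.comp_apply, LinearMap.comp_apply, LinearEquiv.coe_coe, LinearEquiv.coe_coe,
        LinearEquiv.apply_symm_apply]
      rfl
  · intro σ hσ
    constructor
    · intro y
      rw [hl σ hσ]
      simp [(X.lat σ).zero_mem]
    · intro w
      constructor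
      · intro hw
        refine ⟨e.symm (w, 0), ?_, ?_⟩
        · rw [hl σ hσ, LinearEquiv.apply_symm_apply]
          exact ⟨hw, (Y.lat σ).zero_mem⟩
        · rw [LinearMap.comp_apply, LinearEquiv.coe_coe, LinearEquiv.apply_symm_apply]
          rfl
      · rintro ⟨v, hv, rfl⟩
        exact ((hl σ hσ v).1 hv).1

/-! ### strict retracts -/

theorem cdel_cone1 {I : Type} [LinearOrder I] {L : Type u} [Field L] {V : Type u} [AddCommGroup V]
    [Module L V] (σ : Finset I) : cdel (cone1 V : Finset I → (V →ₗ[L] V)) σ = 0 := by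
  unfold cdel cone1
  by_cases h : σ.card = 2
  · obtain ⟨a, b, hab, rfl⟩ := Finset.card_eq_two.1 h
    wlog hlt : a < b generalizing a b
    · rw [Finset.pair_comm]
      exact this b a hab.symm (by rw [Finset.pair_comm]; exact h)
        (lt_of_le_of_ne (not_lt.1 hlt) hab.symm)
    have h1 : ({a, b} : Finset I).erase a = {b} := by
      ext x
      simp only [Finset.mem_erase, Finset.mem_insert, Finset.mem_singleton]
      constructor
      · rintro ⟨h1, h2 | h2⟩
        · exact absurd h2 h1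
        · exact h2
      · rintro rfl
        exact ⟨hab.symm, Or.inr rfl⟩
    have h2 : ({a, b} : Finset I).erase b = {a} := by
      ext x
      simp only [Finset.mem_erase, Finset.mem_insert, Finset.mem_singleton]
      constructor
      · rintro ⟨h1, h2 | h2⟩
        · exact h2
        · exact absurd h2 h1
      · rintro rfl
        exact ⟨hab, Or.inl rfl⟩
    have h3 : sg ({a, b} : Finset I) a = 1 := by
      unfold sg
      rw [Finset.filter_false_of_mem, Finset.card_empty, pow_zero]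
      intro x hx
      rw [Finset.mem_insert, Finset.mem_singleton] at hx
      rcases hx with rfl | rfl
      · exact lt_irrefl _
      · exact not_lt.2 hlt.le
    have h4 : sg ({a, b} : Finset I) b = -1 := by
      unfold sg
      have : Finset.filter (fun j => j < b) ({a, b} : Finset I) = {a} := by
        ext x
        simp only [Finset.mem_filter, Finset.mem_insert, Finset.mem_singleton]
        constructor
        · rintro ⟨h1 | h1, h2⟩
          · exact h1
          · exact absurd h2 (by rw [h1]; exact lt_irrefl _)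
        · rintro rfl
          exact ⟨Or.inl rfl, hlt⟩
      rw [this, Finset.card_singleton, pow_one]
    rw [Finset.sum_pair hab, h1, h2, h3, h4]
    simp
  · refine Finset.sum_eq_zero fun i hi => ?_
    rw [Finset.card_erase_of_mem hi, if_neg, smul_zero]
    have := Finset.card_pos.2 ⟨i, hi⟩
    omega

/-- the constant cochain -/
def cst {I : Type} [LinearOrder I] {L : Type u} [Field L] {U V : Type u} [AddCommGroup U]
    [AddCommGroup V] [Module L U] [Module L V] (φ : U →ₗ[L] V) (σ : Finset I) : U →ₗ[L] V :=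
  φ ∘ₗ cone1 U σ

theorem cst_empty {I : Type} [LinearOrder I] {L : Type u} [Field L] {U V : Type u} [AddCommGroup U]
    [AddCommGroup V] [Module L U] [Module L V] (φ : U →ₗ[L] V) : cst φ (∅ : Finset I) = 0 := by
  simp [cst, cone1]

theorem cst_eq {I : Type} [LinearOrder I] {L : Type u} [Field L] {U V : Type u} [AddCommGroup U]
    [AddCommGroup V] [Module L U] [Module L V] (φ : U →ₗ[L] V) (σ : Finset I) :
    cst φ σ = if σ.card = 1 then φ else 0 := by
  unfold cst cone1
  split <;> simp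

/-- a strict morphism of degree 0 gives a constant cochain -/
theorem cst_mem {Z : ProjVar k K} (X Y : Cplx Z) (φ : X.V →ₗ[K] Y.V)
    (hφ : IsDeg (X := X.toGrD) (Y := Y.toGrD) 0 φ)
    (hl : ∀ σ : Finset Z.I, σ.Nonempty → ∀ x ∈ X.lat σ, φ x ∈ Y.lat σ) :
    (cst φ : Finset Z.I → (X.V →ₗ[K] Y.V)) ∈ Z.sys.Hom X Y 0 := by
  refine ⟨cst_empty φ, fun σ hσ => ?_⟩
  change cst φ σ ∈ X.H Y σ ∧ IsDeg (X := X.toGrD) (Y := Y.toGrD) (0 - ((σ.card : ℤ) - 1)) (cst φ σ)
  rw [cst_eq]
  split
  · rename_i h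
    refine ⟨fun v hv => hl σ hσ v hv, ?_⟩
    rw [h]
    simpa using hφ
  · exact ⟨Submodule.zero_mem _, IsDeg.zero⟩

theorem rawD_cst {Z : ProjVar k K} (X Y : Cplx Z) (φ : X.V →ₗ[K] Y.V)
    (hd : φ ∘ₗ X.d = Y.d ∘ₗ φ) (σ : Finset Z.I) :
    rawD X.toGrD Y.toGrD 0 (cst φ : Finset Z.I → (X.V →ₗ[K] Y.V)) σ = 0 := by
  unfold rawD
  have h1 : cdel (cst φ : Finset Z.I → (X.V →ₗ[K] Y.V)) σ = 0 := by
    unfold cst
    rw [cdel_comp_left, cdel_cone1, LinearMap.comp_zero]
  rw [h1, cst_eq]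
  split
  · rw [← hd]
    simp
  · simp

theorem isoRetr : IsoRetr.{u} := by
  intro k _ K _ _ Z X Y i p hi hp hdi hdp hli hlp hpi
  refine ⟨⟨cst i, cst_mem Y X i hi hli⟩, ⟨cst p, cst_mem X Y p hp hlp⟩, 0, ?_, ?_, ?_⟩
  · exact Subtype.ext (funext fun σ => rawD_cst Y X i hdi σ)
  · exact Subtype.ext (funext fun σ => rawD_cst X Y p hdp σ)
  · rw [map_zero, add_zero]
    refine Subtype.ext (funext fun σ => ?_)
    change ccup (cst p) (cst i) σ = cone1 Y.V σ
    have h1 : ccup (cst p) (cst i) σ = p ∘ₗ ccup (cone1 X.V) (cst i) σ := by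
      unfold ccup
      rw [lcomp_sum]
      exact Finset.sum_congr rfl fun j _ => by rw [cst, LinearMap.comp_assoc]
    rw [h1, cone_ccup _ (cst_empty i), cst, ← LinearMap.comp_assoc, hpi, LinearMap.id_comp]

end

end Pool.Agent.Helper84.RZ
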