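import Pool.Agent.Helper17.RZ.St4

/-!
# Project RZ (MP_77656e_ag): the augmented Cech complex of `O(d)`, `d_s ≥ -1`, is exact
-/

set_option autoImplicit false

open MvPolynomial

namespace Pool.Agent.Helper84.RZ

open Pool.Agent.Helper17.RZ

universe u

noncomputable section

/-! ### the contraction -/

section contraction

variable {I : Type} [LinearOrder I]

theorem ce_sg_swap {σ : Finset I} {a b : I} (ha : a ∈ σ) (hb : b ∈ σ) (hab : a ≠ b) :
    sg σ a * sg (σ.erase a) b = -(sg σ b * sg (σ.erase b) a) := by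
  have key : ∀ a b : I, a ∈ σ → b ∈ σ → a < b →
      sg σ a * sg (σ.erase a) b = - (sg σ b * sg (σ.erase b) a) := by
    intro a b ha hb hab
    have h1 : sg (σ.erase a) b = - sg σ b := by
      unfold sg
      have : (Finset.filter (fun j => j < b) (σ.erase a)) =
          (Finset.filter (fun j => j < b) σ).erase a := by
        rw [Finset.filter_erase]
      rw [this]
      have hmem : a ∈ Finset.filter (fun j => j < b) σ := by simp [ha, hab]
      have hc := Finset.card_erase_add_one hmem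
      rw [← hc, pow_succ]; ring
    have h2 : sg (σ.erase b) a = sg σ a := by
      unfold sg
      have : (Finset.filter (fun j => j < a) (σ.erase b)) =
          (Finset.filter (fun j => j < a) σ) := by
        rw [Finset.filter_erase, Finset.erase_eq_of_notMem]
        simp [hab.le]
      rw [this]
    rw [h1, h2]; ring
  rcases lt_or_gt_of_ne hab with h | h
  · exact key a b ha hb h
  · have := key b a hb ha h
    rw [this]; ring

/-- the contraction -/
def ctr {M : Type u} [AddCommGroup M] (w : I) (c : Finset I → M) (σ : Finset I) : M :=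
  if w ∈ σ then 0 else sg (insert w σ) w • c (insert w σ)

theorem cdel_ctr {M : Type u} [AddCommGroup M] (w : I) (c : Finset I → M)
    (hc : ∀ σ, cdel c σ = 0) (σ : Finset I) : cdel (ctr w c) σ = c σ := by
  by_cases hw : w ∈ σ
  · unfold cdel
    rw [Finset.sum_eq_single w]
    · unfold ctr
      rw [if_neg (Finset.notMem_erase w σ), Finset.insert_erase hw, smul_smul, sg_mul_self, one_smul]
    · intro i hi hiw
      unfold ctr
      rw [if_pos (Finset.mem_erase.2 ⟨hiw.symm, hw⟩), smul_zero]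
    · exact fun h => absurd hw h
  · have h1 := hc (insert w σ)
    unfold cdel at h1
    rw [Finset.sum_insert hw, Finset.erase_insert hw] at h1
    have h2 : cdel (ctr w c) σ =
        -(sg (insert w σ) w • ∑ i ∈ σ, sg (insert w σ) i • c ((insert w σ).erase i)) := by
      unfold cdel
      rw [Finset.smul_sum, ← Finset.sum_neg_distrib]
      refine Finset.sum_congr rfl fun i hi => ?_
      have hiw : i ≠ w := fun h => hw (h ▸ hi)
      have hwi : w ∉ σ.erase i := fun h => hw (Finset.mem_of_mem_erase h)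
      have h3 : insert w (σ.erase i) = (insert w σ).erase i := by
        rw [Finset.erase_insert_of_ne hiw.symm]
      unfold ctr
      rw [if_neg hwi, h3, smul_smul, smul_smul, ← neg_smul]
      congr 1
      have h4 := ce_sg_swap (σ := insert w σ) (Finset.mem_insert_self w σ)
        (Finset.mem_insert_of_mem hi) hiw.symm
      rw [Finset.erase_insert hw] at h4
      have h5 := sg_mul_self (insert w σ) w
      have h6 := sg_mul_self ((insert w σ).erase i) w
      calc sg σ i * sg ((insert w σ).erase i) w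
          = sg (insert w σ) w * sg ((insert w σ).erase i) w *
            (sg (insert w σ) w * sg σ i) := by
            linear_combination (-(sg σ i * sg ((insert w σ).erase i) w)) * h5
        _ = sg (insert w σ) w * sg ((insert w σ).erase i) w *
            -(sg (insert w σ) i * sg ((insert w σ).erase i) w) := by rw [h4]
        _ = -(sg (insert w σ) w * sg (insert w σ) i) := by
            linear_combination (-(sg (insert w σ) w * sg (insert w σ) i)) * h6
    have h7 : ∑ i ∈ σ, sg (insert w σ) i • c ((insert w σ).erase i) =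
        -(sg (insert w σ) w • c σ) := by
      rw [eq_neg_iff_add_eq_zero, add_comm]
      exact h1
    rw [h2, h7, smul_neg, neg_neg, smul_smul, sg_mul_self, one_smul]

theorem ce_cdel_sub {M : Type u} [AddCommGroup M] (f g : Finset I → M) (σ : Finset I) :
    cdel (fun τ => f τ - g τ) σ = cdel f σ - cdel g σ := by
  unfold cdel
  rw [← Finset.sum_sub_distrib]
  exact Finset.sum_congr rfl fun i _ => smul_sub _ _ _

theorem ce_cdel_add {M : Type u} [AddCommGroup M] (f g : Finset I → M) (σ : Finset I) :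
    cdel (fun τ => f τ + g τ) σ = cdel f σ + cdel g σ := by
  unfold cdel
  rw [← Finset.sum_add_distrib]
  exact Finset.sum_congr rfl fun i _ => smul_add _ _ _

end contraction

/-! ### homogeneity -/

variable (k : Type u) [Field k]

theorem ce_wh_x2 (s : Fin 4) (j : Bool) :
    IsWeightedHomogeneous wt (X (s, j) ^ 2 : SS k) (Pi.single s 2) := by
  have h := (isWeightedHomogeneous_X k wt (s, j)).pow 2
  have e : 2 • wt (s, j) = Pi.single s 2 := by
    funext t
    by_cases h : t = s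
    · subst h; simp [wt]
    · simp [wt, Pi.single_eq_of_ne h]
  rwa [e] at h

theorem ce_single_add (s : Fin 4) (a b : ℕ) :
    (Pi.single s a + Pi.single s b : Fin 4 → ℕ) = Pi.single s (a + b) := by
  funext t
  by_cases h : t = s
  · subst h; simp
  · simp [Pi.single_eq_of_ne h]

theorem ce_wh_p (s : Fin 4) :
    IsWeightedHomogeneous wt (X (s, false) ^ 2 + X (s, true) ^ 2 : SS k) (Pi.single s 2) :=
  (ce_wh_x2 k s false).add (ce_wh_x2 k s true)

theorem ce_wh_m (s : Fin 4) :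
    IsWeightedHomogeneous wt (X (s, false) ^ 2 - X (s, true) ^ 2 : SS k) (Pi.single s 2) :=
  (weightedHomogeneousSubmodule k wt _).sub_mem (ce_wh_x2 k s false) (ce_wh_x2 k s true)

theorem ce_wh_xy (s : Fin 4) :
    IsWeightedHomogeneous wt (X (s, false) * X (s, true) : SS k) (Pi.single s 2) := by
  have h := (isWeightedHomogeneous_X k wt (s, false)).mul (isWeightedHomogeneous_X k wt (s, true))
  have e : wt (s, false) + wt (s, true) = Pi.single s 2 := ce_single_add s 1 1
  rwa [e] at h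

theorem ce_wh_lt (s : Fin 4) (c : Fin 5) : IsWeightedHomogeneous wt (lt k s c) (Pi.single s 4) := by
  have e : (Pi.single s 2 + Pi.single s 2 : Fin 4 → ℕ) = Pi.single s 4 := ce_single_add s 2 2
  fin_cases c
  · have := (ce_wh_p k s).mul (ce_wh_p k s)
    rw [e, ← pow_two] at this
    exact this
  · have := (ce_wh_x2 k s false).mul (ce_wh_x2 k s true)
    rw [e] at this
    exact this
  · have := (ce_wh_p k s).mul (ce_wh_xy k s)
    rw [e] at this
    exact this
  · have := (ce_wh_p k s).mul (ce_wh_m k s)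
    rw [e] at this
    exact this
  · have := (ce_wh_xy k s).mul (ce_wh_m k s)
    rw [e] at this
    exact this

theorem ce_wh_fw (w : Fin 4 → Fin 5) : IsWeightedHomogeneous wt (fw k w) (fun _ => 4) := by
  have h := IsWeightedHomogeneous.prod (w := wt) Finset.univ (fun s => lt k s (w s))
    (fun s => (Pi.single s 4 : Fin 4 → ℕ)) fun s _ => ce_wh_lt k s (w s)
  have e : ∑ s, (Pi.single s 4 : Fin 4 → ℕ) = fun _ => 4 :=
    Finset.univ_sum_single (fun _ : Fin 4 => 4)
  rw [e] at h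
  exact h

theorem ce_wh_fs (σ : Finset GW) : IsWeightedHomogeneous wt (fs k σ) (fun _ => 4 * σ.card) := by
  have h := IsWeightedHomogeneous.prod (w := wt) σ (fun w => fw k w.1)
    (fun _ => (fun _ => 4 : Fin 4 → ℕ)) fun w _ => ce_wh_fw k w.1
  have e : ∑ _w ∈ σ, (fun _ => 4 : Fin 4 → ℕ) = fun _ => 4 * σ.card := by
    funext t
    simp [mul_comm]
  rw [e] at h
  exact h

theorem ce_fs_ne_zero (σ : Finset GW) : fs k σ ≠ 0 :=
  Finset.prod_ne_zero_iff.mpr fun w _ => fw_ne_zero k w.1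

/-- the factors `1, a_s, b_s, a_s b_s` -/
def hf (s : Fin 4) (i : Fin 4) : SS k := ![1, lt k s 0, lt k s 1, lt k s 0 * lt k s 1] i

def hn (i : Fin 4) : ℕ := ![0, 4, 4, 8] i

theorem hf_ne_zero (s i : Fin 4) : hf k s i ≠ 0 := by
  fin_cases i
  · exact one_ne_zero
  · exact lt_ne_zero k s 0
  · exact lt_ne_zero k s 1
  · exact mul_ne_zero (lt_ne_zero k s 0) (lt_ne_zero k s 1)

theorem hf_wh (s i : Fin 4) : IsWeightedHomogeneous wt (hf k s i) (Pi.single s (hn i)) := by
  fin_cases i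
  · have := isWeightedHomogeneous_one k (wt : Fin 4 × Bool → (Fin 4 → ℕ))
    have e : (Pi.single s (hn 0) : Fin 4 → ℕ) = 0 := by simp [hn]
    exact e ▸ this
  · exact ce_wh_lt k s 0
  · exact ce_wh_lt k s 1
  · have := (ce_wh_lt k s 0).mul (ce_wh_lt k s 1)
    rw [ce_single_add] at this
    exact this

/-- the products of the factors -/
def hp (t : Fin 4 → Fin 4) : SS k := ∏ s, hf k s (t s)

theorem hp_ne_zero (t : Fin 4 → Fin 4) : hp k t ≠ 0 :=
  Finset.prod_ne_zero_iff.mpr fun s _ => hf_ne_zero k s (t s)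

theorem hp_wh (t : Fin 4 → Fin 4) : IsWeightedHomogeneous wt (hp k t) (fun s => hn (t s)) := by
  have h := IsWeightedHomogeneous.prod (w := wt) Finset.univ (fun s => hf k s (t s))
    (fun s => (Pi.single s (hn (t s)) : Fin 4 → ℕ)) fun s _ => hf_wh k s (t s)
  have e : ∑ s, (Pi.single s (hn (t s)) : Fin 4 → ℕ) = fun s => hn (t s) :=
    Finset.univ_sum_single (fun s : Fin 4 => hn (t s))
  rw [e] at h
  exact h

theorem hp_update (t : Fin 4 → Fin 4) (s i : Fin 4) (hs : t s = 0) :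
    hp k (Function.update t s i) = hp k t * hf k s i := by
  unfold hp
  have h1 : ∀ s' ∈ Finset.univ.erase s, hf k s' (Function.update t s i s') = hf k s' (t s') := by
    intro s' hs'
    rw [Function.update_of_ne (Finset.ne_of_mem_erase hs')]
  rw [← Finset.mul_prod_erase _ _ (Finset.mem_univ s), ← Finset.mul_prod_erase Finset.univ
    (fun s => hf k s (t s)) (Finset.mem_univ s), Finset.prod_congr rfl h1, Function.update_self, hs]
  have h2 : hf k s 0 = 1 := rfl
  rw [h2]
  ring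

/-! ### denominators -/

variable {k}

theorem Dn_pow (g : SS k) (m : ℕ) : Dn k (g ^ m) ≤ Dn k g := by
  rintro x ⟨N, p, hp⟩
  refine ⟨m * N, p, ?_⟩
  rw [← hp, map_pow, pow_mul]

/-- functions of degree `d` with denominators powers of `h f_σ` -/
def FF (d : Fin 4 → ℤ) (h : SS k) (σ : Finset GW) : Set (LL k) :=
  {x | x ∈ HD k d ∧ x ∈ Dn k (h * fs k σ)}

theorem FF_zero (d : Fin 4 → ℤ) (h : SS k) (σ : Finset GW) : (0 : LL k) ∈ FF d h σ :=
  ⟨(HD k d).zero_mem, (Dn k _).zero_mem⟩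

theorem FF_add {d : Fin 4 → ℤ} {h : SS k} {σ : Finset GW} {x y : LL k} (hx : x ∈ FF d h σ)
    (hy : y ∈ FF d h σ) : x + y ∈ FF d h σ :=
  ⟨(HD k d).add_mem hx.1 hy.1, (Dn k _).add_mem hx.2 hy.2⟩

theorem FF_sub {d : Fin 4 → ℤ} {h : SS k} {σ : Finset GW} {x y : LL k} (hx : x ∈ FF d h σ)
    (hy : y ∈ FF d h σ) : x - y ∈ FF d h σ :=
  ⟨(HD k d).sub_mem hx.1 hy.1, (Dn k _).sub_mem hx.2 hy.2⟩

theorem FF_zsmul {d : Fin 4 → ℤ} {h : SS k} {σ : Finset GW} {x : LL k} (hx : x ∈ FF d h σ)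
    (n : ℤ) : n • x ∈ FF d h σ :=
  ⟨zsmul_mem hx.1 n, zsmul_mem hx.2 n⟩

theorem FF_sum {d : Fin 4 → ℤ} {h : SS k} {σ : Finset GW} {ι : Type} (s : Finset ι) (f : ι → LL k)
    (hf : ∀ i ∈ s, f i ∈ FF d h σ) : ∑ i ∈ s, f i ∈ FF d h σ :=
  ⟨(HD k d).sum_mem fun i hi => (hf i hi).1, (Dn k _).sum_mem fun i hi => (hf i hi).2⟩

theorem FF_mono {d : Fin 4 → ℤ} {h h' : SS k} (hh : h ∣ h') {σ τ : Finset GW} (hστ : σ ⊆ τ)
    {x : LL k} (hx : x ∈ FF d h σ) : x ∈ FF d h' τ :=
  ⟨hx.1, Dn_mono (mul_dvd_mul hh (fs_dvd hστ)) hx.2⟩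

theorem FF_cdel {d : Fin 4 → ℤ} {h : SS k} {c : Finset GW → LL k} (hc : ∀ σ, c σ ∈ FF d h σ)
    (σ : Finset GW) : cdel c σ ∈ FF d h σ :=
  FF_sum _ _ fun i _ => FF_zsmul (FF_mono dvd_rfl (Finset.erase_subset i σ) (hc _)) _

/-- exactness of the augmented Cech complex with denominators powers of `h f_σ` -/
def Exct (d : Fin 4 → ℤ) (h : SS k) : Prop :=
  ∀ c : Finset GW → LL k, (∀ σ, c σ ∈ FF d h σ) → (∀ σ, cdel c σ = 0) →
    ∃ b : Finset GW → LL k, (∀ σ, b σ ∈ FF d h σ) ∧ ∀ σ, cdel b σ = c σ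

theorem exct_of_dvd (d : Fin 4 → ℤ) (h : SS k) (w : GW) (hw : fw k w.1 ∣ h) : Exct d h := by
  intro c hc hc0
  refine ⟨ctr w c, fun σ => ?_, cdel_ctr w c hc0⟩
  unfold ctr
  split_ifs with hσ
  · exact FF_zero d h σ
  · refine FF_zsmul ⟨(hc _).1, ?_⟩ _
    refine Dn_pow (h * fs k σ) 2 (Dn_mono ?_ (hc (insert w σ)).2)
    have h1 : fs k (insert w σ) = fw k w.1 * fs k σ := Finset.prod_insert hσ
    rw [h1]
    obtain ⟨h', rfl⟩ := hw
    exact ⟨h' * fs k σ, by ring⟩

theorem ce_frac (q H A B : SS k) (hH : H = A * B) (N : ℕ) (hA : al k A ≠ 0) (hB : al k B ≠ 0) :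
    al k (q * B ^ N) / al k (H ^ N) * al k A ^ N = al k q := by
  have h1 : al k (q * B ^ N) = al k q * al k B ^ N := by
    simp only [al, map_mul, map_pow]
  have h2 : al k (H ^ N) = al k A ^ N * al k B ^ N := by
    rw [hH, ← mul_pow]
    simp only [al, map_mul, map_pow]
  rw [h1, h2]
  generalize al k A = a at hA
  generalize al k B = b at hB
  generalize al k q = c
  field_simp

/-- the splitting -/
theorem FF_split (hHN : HomNum.{u}) (hBD : BigDeg.{u}) (h2 : (2 : k) ≠ 0) (d : Fin 4 → ℤ)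
    (hd : ∀ s, -1 ≤ d s) (h : SS k) (e : Fin 4 → ℕ) (hh : h ≠ 0) (he : IsWeightedHomogeneous wt h e)
    (s : Fin 4) (hs : e s = 0) (σ : Finset GW) (z : LL k)
    (hz : z ∈ FF d (h * (lt k s 0 * lt k s 1)) σ) :
    ∃ z1 z2 : LL k, z1 ∈ FF d (h * lt k s 0) σ ∧ z2 ∈ FF d (h * lt k s 1) σ ∧ z = z1 + z2 := by
  have ha := lt_ne_zero k s 0
  have hb := lt_ne_zero k s 1
  have hf := ce_fs_ne_zero k σ
  set H : SS k := h * (lt k s 0 * lt k s 1) * fs k σ with hH
  have hH0 : H ≠ 0 := mul_ne_zero (mul_ne_zero hh (mul_ne_zero ha hb)) hf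
  have hHw : IsWeightedHomogeneous wt H
      (e + (Pi.single s 4 + Pi.single s 4) + fun _ => 4 * σ.card) :=
    (he.mul ((ce_wh_lt k s 0).mul (ce_wh_lt k s 1))).mul (ce_wh_fs k σ)
  obtain ⟨N, g, f, hN, hg, hf', hzN⟩ := hHN k H _ hH0 hHw d z hz.1 hz.2 1
  rcases hf' with rfl | hf'
  · exact ⟨0, 0, FF_zero _ _ _, FF_zero _ _ _, (add_zero 0).symm⟩
  have hfs := hf' s
  simp only [Pi.add_apply, Pi.single_eq_same, hs] at hfs
  have hds := hd s
  have hbig : 8 * N ≤ f s + 1 := by
    have h3 : (8 * N : ℤ) ≤ N * ((0 + (4 + 4) + 4 * σ.card : ℕ) : ℤ) := by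
      push_cast
      nlinarith [Int.natCast_nonneg N, Int.natCast_nonneg σ.card,
        mul_nonneg (Int.natCast_nonneg N) (Int.natCast_nonneg σ.card)]
    omega
  obtain ⟨p, q, e', hfe, hp, hq, hgpq⟩ := hBD k h2 s N g f hg hbig hN
  have hA : al k (lt k s 0) ≠ 0 := al_ne_zero k ha
  have hB : al k (lt k s 1) ≠ 0 := al_ne_zero k hb
  have hHal : al k H ≠ 0 := al_ne_zero k hH0
  have hHN' : H ^ N ≠ 0 := pow_ne_zero _ hH0
  have hdeg : ∀ t, ((f t : ℕ) : ℤ) - ((N • (e + (Pi.single s 4 + Pi.single s 4) +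
      fun _ => 4 * σ.card) : Fin 4 → ℕ) t : ℕ) = d t := by
    intro t
    have := hf' t
    rw [Pi.smul_apply, smul_eq_mul]
    push_cast
    push_cast at this
    linarith
  have hsing : ∀ c : Fin 5, IsWeightedHomogeneous wt (lt k s c ^ N) (Pi.single s (4 * N)) := by
    intro c
    have h3 := (ce_wh_lt k s c).pow N
    have e3 : N • (Pi.single s 4 : Fin 4 → ℕ) = Pi.single s (4 * N) := by
      rw [← Pi.single_smul, smul_eq_mul, mul_comm]
    rwa [e3] at h3
  have key : ∀ (c : Fin 5) (r : SS k), IsWeightedHomogeneous wt r e' →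
      al k (r * lt k s c ^ N) / al k (H ^ N) ∈ HD k d := by
    intro c r hr
    refine ⟨_, _, f, _, hHN', ?_, hHw.pow N, hdeg, rfl⟩
    rw [hfe]
    exact hr.mul (hsing c)
  refine ⟨al k (q * lt k s 1 ^ N) / al k (H ^ N), al k (p * lt k s 0 ^ N) / al k (H ^ N),
    ⟨key 1 q hq, N, q, ?_⟩, ⟨key 0 p hp, N, p, ?_⟩, ?_⟩
  · have h4 : H = (h * lt k s 0 * fs k σ) * lt k s 1 := by rw [hH]; ring
    have h5 : al k (h * lt k s 0 * fs k σ) ≠ 0 :=
      al_ne_zero k (mul_ne_zero (mul_ne_zero hh ha) hf)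
    exact ce_frac _ _ _ _ h4 N h5 hB
  · have h4 : H = (h * lt k s 1 * fs k σ) * lt k s 0 := by rw [hH]; ring
    have h5 : al k (h * lt k s 1 * fs k σ) ≠ 0 :=
      al_ne_zero k (mul_ne_zero (mul_ne_zero hh hb) hf)
    exact ce_frac _ _ _ _ h4 N h5 hA
  · have h6 : z = al k g / al k (H ^ N) := by
      rw [eq_div_iff (al_ne_zero k hHN'), ← hzN]
      simp only [al, map_pow]
    rw [h6, hgpq, ← add_div]
    congr 1
    simp only [al, map_add]
    ring

/-- coprimality -/
theorem lt_isRelPrime (s : Fin 4) : IsRelPrime (lt k s 0) (lt k s 1) := by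
  have hx : ∀ j j' : Bool, j ≠ j' → IsRelPrime (X (s, false) ^ 2 + X (s, true) ^ 2 : SS k)
      (X (s, j)) := by
    intro j j' hj
    have hprime : Prime (X (s, j) : SS k) := X_prime
    refine IsRelPrime.symm ?_
    refine (hprime.irreducible.isRelPrime_iff_not_dvd).2 ?_
    intro hdvd
    have h1 : (X (s, j) : SS k) ∣ X (s, j') ^ 2 := by
      have h2 : (X (s, false) ^ 2 + X (s, true) ^ 2 : SS k) = X (s, j) * X (s, j) + X (s, j') ^ 2 := by
        cases j <;> cases j' <;> first | exact absurd rfl hj | ring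
      rw [h2] at hdvd
      exact (dvd_add_right (dvd_mul_right _ _)).1 hdvd
    have h3 := hprime.dvd_of_dvd_pow h1
    rw [X_dvd_X] at h3
    exact hj (Prod.mk.inj h3).2
  have h1 : IsRelPrime (X (s, false) ^ 2 + X (s, true) ^ 2 : SS k) (X (s, false) ^ 2 * X (s, true) ^ 2) :=
    IsRelPrime.mul_right (IsRelPrime.pow_right (hx false true (by simp)))
      (IsRelPrime.pow_right (hx true false (by simp)))
  exact IsRelPrime.pow_left h1

/-- the Mayer-Vietoris step -/
theorem exct_step (hHN : HomNum.{u}) (hDI : DnInter.{u}) (hBD : BigDeg.{u}) (h2 : (2 : k) ≠ 0)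
    (d : Fin 4 → ℤ) (hd : ∀ s, -1 ≤ d s) (h : SS k) (e : Fin 4 → ℕ) (hh : h ≠ 0)
    (he : IsWeightedHomogeneous wt h e) (s : Fin 4) (hs : e s = 0)
    (E0 : Exct d (h * lt k s 0)) (E1 : Exct d (h * lt k s 1))
    (E2 : Exct d (h * (lt k s 0 * lt k s 1))) : Exct d h := by
  intro c hc hc0
  obtain ⟨b1, hb1, hb1c⟩ := E0 c (fun σ => FF_mono (dvd_mul_right _ _) (Finset.Subset.refl σ) (hc σ)) hc0
  obtain ⟨b2, hb2, hb2c⟩ := E1 c (fun σ => FF_mono (dvd_mul_right _ _) (Finset.Subset.refl σ) (hc σ)) hc0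
  have hsubc : ∀ f g : Finset GW → LL k, ∀ σ, cdel (fun τ => f τ - g τ) σ = cdel f σ - cdel g σ :=
    fun f g σ => ce_cdel_sub f g σ
  have hd0 : h * lt k s 0 ∣ h * (lt k s 0 * lt k s 1) := mul_dvd_mul_left h (dvd_mul_right _ _)
  have hd1 : h * lt k s 1 ∣ h * (lt k s 0 * lt k s 1) := mul_dvd_mul_left h (dvd_mul_left _ _)
  obtain ⟨ee, hee, heec⟩ := E2 (fun σ => b1 σ - b2 σ)
    (fun σ => FF_sub (FF_mono hd0 (Finset.Subset.refl σ) (hb1 σ))
      (FF_mono hd1 (Finset.Subset.refl σ) (hb2 σ)))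
    (fun σ => by rw [hsubc, hb1c, hb2c, sub_self])
  choose e1 e2 he1 he2 he12 using fun σ => FF_split hHN hBD h2 d hd h e hh he s hs σ (ee σ) (hee σ)
  have hb12 : ∀ σ, b1 σ - cdel e1 σ = b2 σ + cdel e2 σ := by
    intro σ
    have h3 : cdel ee σ = cdel e1 σ + cdel e2 σ := by
      rw [← ce_cdel_add, ← funext he12]
    have h4 := heec σ
    rw [h3] at h4
    linear_combination -h4
  refine ⟨fun σ => b1 σ - cdel e1 σ, fun σ => ?_, fun σ => ?_⟩
  · have h5 : b1 σ - cdel e1 σ ∈ FF d (h * lt k s 0) σ := FF_sub (hb1 σ) (FF_cdel he1 σ)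
    have h6 : b1 σ - cdel e1 σ ∈ FF d (h * lt k s 1) σ := by
      rw [hb12]
      exact FF_add (hb2 σ) (FF_cdel he2 σ)
    refine ⟨h5.1, hDI k (h * fs k σ) (lt k s 0) (lt k s 1) (mul_ne_zero hh (ce_fs_ne_zero k σ))
      (lt_ne_zero k s 0) (lt_ne_zero k s 1) (lt_isRelPrime s) ⟨?_, ?_⟩⟩
    · have h7 : h * fs k σ * lt k s 0 = h * lt k s 0 * fs k σ := by ring
      rw [h7]
      exact h5.2
    · have h7 : h * fs k σ * lt k s 1 = h * lt k s 1 * fs k σ := by ring
      rw [h7]
      exact h6.2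
  · rw [hsubc b1 (fun τ => cdel e1 τ) σ, hb1c]
    have h8 := cdel_cdel e1 σ
    change c σ - cdel (cdel e1) σ = c σ
    rw [h8, sub_zero]

theorem exct_all (hHN : HomNum.{u}) (hDI : DnInter.{u}) (hBD : BigDeg.{u}) (h2 : (2 : k) ≠ 0)
    (d : Fin 4 → ℤ) (hd : ∀ s, -1 ≤ d s) : ∀ (n : ℕ) (t : Fin 4 → Fin 4),
    (∀ s : Fin 4, n ≤ s.1 → t s ≠ 0) → Exct d (hp k t) := by
  intro n
  induction n with
  | zero =>
    intro t ht
    have hw : ∃ w : Fin 4 → Fin 5, (∀ s, w s = 0 ∨ w s = 1) ∧ ∀ s, lt k s (w s) ∣ hf k s (t s) := by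
      have : ∀ s, ∃ c : Fin 5, (c = 0 ∨ c = 1) ∧ lt k s c ∣ hf k s (t s) := by
        intro s
        have h0 := ht s (Nat.zero_le _)
        generalize t s = i at h0
        fin_cases i
        · exact absurd rfl h0
        · exact ⟨0, Or.inl rfl, dvd_rfl⟩
        · exact ⟨1, Or.inr rfl, dvd_rfl⟩
        · exact ⟨0, Or.inl rfl, dvd_mul_right _ _⟩
      choose w hw1 hw2 using this
      exact ⟨w, hw1, hw2⟩
    obtain ⟨w, hw1, hw2⟩ := hw
    have hgood : Good w := by
      intro a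
      refine Finset.prod_eq_one fun s _ => ?_
      rcases hw1 s with h | h <;> rw [h] <;> rcases code a s with ⟨_ | _, _ | _⟩ <;> rfl
    exact exct_of_dvd d _ ⟨w, hgood⟩ (Finset.prod_dvd_prod_of_dvd _ _ fun s _ => hw2 s)
  | succ n ih =>
    intro t ht
    by_cases hn : n < 4
    · by_cases h0 : t ⟨n, hn⟩ = 0
      · have hup : ∀ i : Fin 4, i ≠ 0 → Exct d (hp k t * hf k ⟨n, hn⟩ i) := by
          intro i hi
          rw [← hp_update k t ⟨n, hn⟩ i h0]
          refine ih _ fun s hs => ?_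
          by_cases hsn : s = ⟨n, hn⟩
          · rw [hsn, Function.update_self]
            exact hi
          · rw [Function.update_of_ne hsn]
            refine ht s ?_
            have : s.1 ≠ n := fun h => hsn (Fin.ext h)
            omega
        exact exct_step hHN hDI hBD h2 d hd (hp k t) _ (hp_ne_zero k t) (hp_wh k t) ⟨n, hn⟩
          (by rw [h0]; rfl) (hup 1 (by decide)) (hup 2 (by decide)) (hup 3 (by decide))
      · refine ih t fun s hs => ?_
        by_cases hsn : s = ⟨n, hn⟩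
        · rw [hsn]
          exact h0
        · refine ht s ?_
          have : s.1 ≠ n := fun h => hsn (Fin.ext h)
          omega
    · exact ih t fun s hs => absurd s.2 (by omega)

theorem cechEx (hHN : HomNum.{u}) (hDI : DnInter.{u}) (hBD : BigDeg.{u}) : CechEx.{u} := by
  intro k _ h2 d hd c hc hc0
  have h1 : hp k (fun _ => 0) = 1 := by
    unfold hp
    exact Finset.prod_eq_one fun s _ => rfl
  have hE := exct_all hHN hDI hBD h2 d hd 4 (fun _ => 0) (fun s hs => absurd s.2 (by omega))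
  rw [h1] at hE
  have hFF : ∀ (σ : Finset GW) (x : LL k), x ∈ FF d 1 σ ↔ x ∈ HD k d ∧ x ∈ Dn k (fs k σ) := by
    intro σ x
    unfold FF
    rw [one_mul]
    rfl
  obtain ⟨b, hb, hbc⟩ := hE c (fun σ => (hFF σ _).2 (hc σ)) hc0
  exact ⟨b, fun σ => (hFF σ _).1 (hb σ), hbc⟩

end

end Pool.Agent.Helper84.RZ
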